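import Pool.Agent.J4H98.HP.Fourier
import Pool.Agent.J4H98.HP.Asm3
import Pool.Agent.J4H84.HP.ExpA2
import Pool.Agent.J4H4.HP.Gb

/-!
# Perfectness of the Hecke pairings for prime level of degree 4

`A = Fq[X]` (the variable is the `T` of the problem), `K_∞ = Fq((π))`, `π = 1/T`, `n` a monic
irreducible polynomial of degree `4`. Edges of the tree of `PGL₂(K_∞)` are cosets of
`GL₂(K_∞)` modulo the centre and the Iwahori subgroup. For the modular forms, `C` is any complete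
algebraically closed nonarchimedean field containing `A` through `T ↦ t`, `|t| > 1` (for instance
`C_∞`, `t = T`), and `ϖ` is any nonzero number (for instance the Carlitz period).
-/

open Polynomial Matrix TensorProduct

namespace Pool.Agent.Results.MP_574a97_nt.PerfectPairings

open Pool.Agent.J4H98.HP

/-- For every finite field and every prime `n` of degree `4`: the pairing
`𝕋(n, ℤ) × Harm₀(n, ℤ) → ℤ`, `(θ, F) ↦ c₁(θ F)`, is perfect, so is its base change to every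
commutative ring, in particular to `F_p`, and the pairing
`𝕋(n, C) × M^{0,0}_{2,1}(n) → C`, `(θ, f) ↦ b₁(θ f)`, is perfect. -/
theorem result : ∀ (Fq : Type) [Field Fq] [Fintype Fq] (n : Fq[X]), n.Monic → Irreducible n →
    n.natDegree = 4 →
    ((Module.Finite ℤ (Harm n) ∧ Module.Free ℤ (Harm n)) ∧
    (Module.Finite ℤ (HeckeT n) ∧ Module.Free ℤ (HeckeT n)) ∧
    (∀ m : Fq[X], m.Monic → ∃ θ : HeckeT n, ∀ F : Harm n, (θ.op F).fn = hecke n m F.fn) ∧
    (∀ x y : HeckeT n, x * y = y * x) ∧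
    (∀ F : Harm n, ∀ ψ : AddChar Fq ℂ, ψ ≠ 1 →
      (Fintype.card Fq : ℂ) * ((c1 F.fn : ℤ) : ℂ) = ∑ a : Fq,
        (F.fn (gl !![unif Fq ^ 2, HahnSeries.C a * unif Fq; 0, 1]) : ℂ) * ψ (-a)) ∧
    (pairing n).IsPerfPair ∧
    (∀ (p : ℕ) [Fact p.Prime] [CharP Fq p], (bcPair (ZMod p) (pairing n)).IsPerfPair) ∧
    (∀ (R : Type) [CommRing R], (bcPair R (pairing n)).IsPerfPair)) ∧
    (∀ (C : Type) [NontriviallyNormedField C] [IsUltrametricDist C] [CompleteSpace C]
      [IsAlgClosed C] [Algebra Fq C] (t ϖ : C), 1 < ‖t‖ → ϖ ≠ 0 → DMFPerfect Fq t ϖ n) := by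
  intro Fq _ _ n hn hirr h4
  refine ⟨⟨⟨harm_finite hn h4 hirr, harm_free hn h4 hirr⟩, heckeT_ff hn h4 hirr,
    fun m hm => ⟨heckeElt hn hm, fun _ => rfl⟩,
    fun x y => Subtype.ext (heckeRing_comm hn hirr x.1 x.2 y.1 y.2),
    fun F ψ hψ => c1_fourier hn h4 F.isHarm ψ hψ, pairing_perfect hn h4 hirr,
    fun p _ _ => pairing_bc hn h4 hirr (ZMod p), fun R _ => pairing_bc hn h4 hirr R⟩,
    fun C _ _ _ _ _ t ϖ ht hϖ => ?_⟩
  have h5 := Pool.Agent.J4H84.HP.t_EXPA
  exact dmf_perfect h5 (Pool.Agent.J4H4.HP.t_GB h5 (Pool.Agent.J4H4.HP.t_UE h5)) ht hϖ hn h4 hirr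

end Pool.Agent.Results.MP_574a97_nt.PerfectPairings
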